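import Pool.Agent.Work.MP_e214ac_gt.A.SymF

/-!
# Module A/K0: a differential operator `T` with `E_i ∘ T = 0` vanishes

Proof.  `T = act c` (`mem_DOalg_iff`), `0 = dEnd (E i) * act c = act (X i * c + dcoef (E i) c)`
(`dEnd_act`), so `X i * c + dcoef (E i) c = 0` (`act_injective`, `act_zero`).  If `c ≠ 0` let `I` be
in the support of `c` with `I i` maximal.  The coefficient of `X i * c` at `I + single i 1` is `c_I`,
the coefficient of `dcoef (E i) c` there is `E i (c_(I + single i 1)) = E i 0 = 0` by maximality.  So
`c_I = 0`, a contradiction.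
-/

set_option autoImplicit false

namespace E214

variable {J : Type} [Fintype J] [DecidableEq J] {B : Type} [CommRing B] [Algebra ℝ B]

theorem K0 (f : Frame J B) (i : J) (T : Module.End ℝ B) (hT : T ∈ DOalg f.E)
    (h : ∀ g, f.E i (T g) = 0) : T = 0 := by
  classical
  obtain ⟨c, rfl⟩ := (mem_DOalg_iff f.E f.hEE T).1 hT
  have h0 : dEnd (f.E i) * act f.E c = 0 := by
    ext x
    exact h x
  rw [dEnd_act f.E f.hEE, ← act_zero f.E] at h0
  have h1 := act_injective f _ _ h0
  by_contra hne
  have hc : c.support.Nonempty := by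
    rw [Finset.nonempty_iff_ne_empty, Ne, MvPolynomial.support_eq_empty]
    rintro rfl
    exact hne (act_zero _)
  obtain ⟨I, hI, hmax⟩ := Finset.exists_max_image c.support (fun I => I i) hc
  have h2 := congrArg (MvPolynomial.coeff (I + Finsupp.single i 1)) h1
  rw [MvPolynomial.coeff_add, coeff_dcoef, mul_comm, MvPolynomial.coeff_mul_X,
    MvPolynomial.coeff_zero] at h2
  have h3 : c.coeff (I + Finsupp.single i 1) = 0 := by
    by_contra hh
    have := hmax _ (MvPolynomial.mem_support_iff.2 hh)
    simp only [Finsupp.add_apply, Finsupp.single_eq_same] at this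
    omega
  rw [h3, map_zero, add_zero] at h2
  exact MvPolynomial.mem_support_iff.1 hI h2

end E214
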