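import Pool.Agent.Work.MP_e214ac_gt.A.SymF

/-!
# Module A/K1: closed families `T_i` of differential operators are exact (at least two directions)

Proof.  Let `w : J → ℕ` be the indicator function of `L` (the `L`-weight of a monomial is
`∑_{i ∈ L} I i`), `m = L.card ≥ 2`.  Write `T_i = act c_i` for `i ∈ L` and
`∇_i c = X i * c + dcoef (E i) c`, so that `dEnd (E i) * act c = act (∇_i c)` (`dEnd_act`) and the
hypothesis says `∇_i c_k = ∇_k c_i` for `i, k ∈ L` (`act_injective`).

Claim, by induction on `N`: if all weighted homogeneous components of `c_i` (`i ∈ L`) of weight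
`≥ N` vanish, and `∇_i c_k = ∇_k c_i`, then there is `s` with `c_i = ∇_i s` for all `i ∈ L`.
* `N = 0`: all `c_i` are zero, `s = 0`.
* `N + 1`: let `C_i` be the component of `c_i` of weight `N`.  `dcoef` preserves the weights, and
  `X i *` (for `i ∈ L`) raises them by one, so the component of weight `N + 1` of the hypothesis is
  `X i * C_k = X k * C_i`.  Apply `pderiv i` and sum over `i ∈ L`:
  `m C_k + ∑_{i ∈ L} X i * pderiv i C_k = C_k + X k * G`, with `G = ∑_{i ∈ L} pderiv i C_i`
  (`pderiv i (X k * C_i) = δ_ik C_i + X k * pderiv i C_i`).  Euler's identity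
  (`MvPolynomial.IsWeightedHomogeneous.sum_weight_X_mul_pderiv`): the sum on the left is `N C_k`.
  So `(N + m - 1) C_k = X k * G`.  Put `s_0 = (N + m - 1)⁻¹ • G` (the number is positive since
  `m ≥ 2`).  `s_0` is homogeneous of weight `N - 1` (zero if `N = 0`).  The family
  `c_i' = c_i - ∇_i s_0` has no components of weight `≥ N`: the component of weight `N` is
  `C_i - X i * s_0 = 0`.  It is again closed because `∇_i ∇_k = ∇_k ∇_i`
  (or, on the level of operators: `T_i' = T_i - E_i ∘ act s_0` satisfies the hypothesis because the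
  `E_i` commute).  By induction `c_i' = ∇_i s_1`, and `s = s_0 + s_1`.
Take `N` larger than all weights that occur and `S = act s`.
-/

set_option autoImplicit false

namespace E214

variable {J : Type} [Fintype J] [DecidableEq J] {B : Type} [CommRing B] [Algebra ℝ B]

/-- `∇_i c = X i * c + dcoef (E i) c`, the symbol of `E_i ∘ act c`. -/
noncomputable def K1_nab (f : Frame J B) (i : J) (c : MvPolynomial J B) : MvPolynomial J B :=
  MvPolynomial.X i * c + dcoef (f.E i) c

theorem K1_act_nab (f : Frame J B) (i : J) (c : MvPolynomial J B) :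
    act f.E (K1_nab f i c) = dEnd (f.E i) * act f.E c :=
  (dEnd_act f.E f.hEE i c).symm

theorem K1_dcoef_add (D : Derivation ℝ B B) (c c' : MvPolynomial J B) :
    dcoef D (c + c') = dcoef D c + dcoef D c' := by
  ext I
  simp only [coeff_dcoef, MvPolynomial.coeff_add, map_add]

theorem K1_dcoef_sub (D : Derivation ℝ B B) (c c' : MvPolynomial J B) :
    dcoef D (c - c') = dcoef D c - dcoef D c' := by
  ext I
  simp only [coeff_dcoef, MvPolynomial.coeff_sub, map_sub]

theorem K1_dcoef_zero (D : Derivation ℝ B B) : dcoef D (0 : MvPolynomial J B) = 0 := by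
  ext I
  simp only [coeff_dcoef, MvPolynomial.coeff_zero, map_zero]

theorem K1_nab_add (f : Frame J B) (i : J) (c c' : MvPolynomial J B) :
    K1_nab f i (c + c') = K1_nab f i c + K1_nab f i c' := by
  unfold K1_nab
  rw [K1_dcoef_add]
  ring

theorem K1_nab_sub (f : Frame J B) (i : J) (c c' : MvPolynomial J B) :
    K1_nab f i (c - c') = K1_nab f i c - K1_nab f i c' := by
  unfold K1_nab
  rw [K1_dcoef_sub]
  ring

theorem K1_nab_zero (f : Frame J B) (i : J) : K1_nab f i 0 = 0 := by
  unfold K1_nab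
  rw [K1_dcoef_zero, mul_zero, add_zero]

theorem K1_nab_comm (f : Frame J B) (i k : J) (c : MvPolynomial J B) :
    K1_nab f i (K1_nab f k c) = K1_nab f k (K1_nab f i c) := by
  apply act_injective f
  rw [K1_act_nab, K1_act_nab, K1_act_nab, K1_act_nab, ← mul_assoc, ← mul_assoc]
  congr 1
  ext x
  exact f.hEE i k x

/-- the weight: one for the directions in `L`, zero for the others -/
def K1_w (L : Finset J) : J → ℕ := fun j => if j ∈ L then 1 else 0

/-- the component of `L`-weight `n` -/
noncomputable def K1_h (L : Finset J) (n : ℕ) (c : MvPolynomial J B) : MvPolynomial J B :=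
  MvPolynomial.weightedHomogeneousComponent (K1_w L) n c

theorem K1_coeff_h (L : Finset J) (n : ℕ) (c : MvPolynomial J B) (I : J →₀ ℕ) :
    (K1_h L n c).coeff I = if Finsupp.weight (K1_w L) I = n then c.coeff I else 0 :=
  MvPolynomial.coeff_weightedHomogeneousComponent n c I

theorem K1_h_add (L : Finset J) (n : ℕ) (c c' : MvPolynomial J B) :
    K1_h L n (c + c') = K1_h L n c + K1_h L n c' := map_add _ _ _

theorem K1_h_sub (L : Finset J) (n : ℕ) (c c' : MvPolynomial J B) :
    K1_h L n (c - c') = K1_h L n c - K1_h L n c' := map_sub _ _ _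

theorem K1_h_zero (L : Finset J) (n : ℕ) : K1_h L n (0 : MvPolynomial J B) = 0 := map_zero _

theorem K1_h_neg (L : Finset J) (n : ℕ) (c : MvPolynomial J B) :
    K1_h L n (-c) = - K1_h L n c := map_neg _ _

theorem K1_h_h (L : Finset J) (n m : ℕ) (c : MvPolynomial J B) :
    K1_h L n (K1_h L m c) = if n = m then K1_h L m c else 0 := by
  ext I
  rw [K1_coeff_h, K1_coeff_h]
  by_cases h : n = m
  · subst h
    rw [if_pos rfl, K1_coeff_h]
    split_ifs <;> rfl
  · rw [if_neg h, MvPolynomial.coeff_zero]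
    split_ifs with h1 h2
    · exact absurd (h1.symm.trans h2) h
    · rfl
    · rfl

theorem K1_h_dcoef (L : Finset J) (n : ℕ) (D : Derivation ℝ B B) (c : MvPolynomial J B) :
    K1_h L n (dcoef D c) = dcoef D (K1_h L n c) := by
  ext I
  rw [K1_coeff_h, coeff_dcoef, coeff_dcoef, K1_coeff_h]
  split_ifs
  · rfl
  · rw [map_zero]

theorem K1_weight_single (L : Finset J) (i : J) (hi : i ∈ L) :
    Finsupp.weight (K1_w L) (Finsupp.single i 1 : J →₀ ℕ) = 1 := by
  rw [Finsupp.weight_single]
  simp [K1_w, hi]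

theorem K1_h_X (L : Finset J) (n : ℕ) (i : J) (hi : i ∈ L) (c : MvPolynomial J B) :
    K1_h L (n + 1) (MvPolynomial.X i * c) = MvPolynomial.X i * K1_h L n c := by
  ext I
  rw [K1_coeff_h, MvPolynomial.coeff_X_mul', MvPolynomial.coeff_X_mul', K1_coeff_h]
  by_cases h : i ∈ I.support
  · rw [if_pos h, if_pos h]
    have h1 : Finsupp.weight (K1_w L) I = Finsupp.weight (K1_w L) (I - Finsupp.single i 1) + 1 := by
      conv_lhs => rw [show I = (I - Finsupp.single i 1) + Finsupp.single i 1 from
        (tsub_add_cancel_of_le (Finsupp.single_le_iff.2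
          (Nat.one_le_iff_ne_zero.2 (Finsupp.mem_support_iff.1 h)))).symm]
      rw [map_add, K1_weight_single L i hi]
    rw [h1]
    simp only [add_left_inj]
  · rw [if_neg h, if_neg h]
    simp

theorem K1_h_nab (f : Frame J B) (L : Finset J) (n : ℕ) (i : J) (hi : i ∈ L)
    (c : MvPolynomial J B) :
    K1_h L (n + 1) (K1_nab f i c)
      = MvPolynomial.X i * K1_h L n c + dcoef (f.E i) (K1_h L (n + 1) c) := by
  unfold K1_nab
  rw [K1_h_add, K1_h_X L n i hi, K1_h_dcoef]

theorem K1_X_cancel (i : J) (c : MvPolynomial J B) (h : MvPolynomial.X i * c = 0) : c = 0 := by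
  ext I
  rw [← MvPolynomial.coeff_X_mul I i c, h, MvPolynomial.coeff_zero, MvPolynomial.coeff_zero]

theorem K1_euler (L : Finset J) (n : ℕ) (c : MvPolynomial J B) :
    ∑ i ∈ L, MvPolynomial.X i * MvPolynomial.pderiv i (K1_h L n c) = n • K1_h L n c := by
  have h := (MvPolynomial.weightedHomogeneousComponent_isWeightedHomogeneous (w := K1_w L) n
    c).sum_weight_X_mul_pderiv
  change _ = n • K1_h L n c at h
  rw [← h, ← Finset.sum_subset (Finset.subset_univ L)]
  · refine Finset.sum_congr rfl fun i hi => ?_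
    simp only [K1_w, if_pos hi, one_smul]
    rfl
  · intro i _ hi
    simp [K1_w, if_neg hi]

/-- the coefficient `N + m` may be divided off -/
theorem K1_div (r : ℕ) (hr : r ≠ 0) (c d : MvPolynomial J B) (h : r • c = d) :
    c = MvPolynomial.C (algebraMap ℝ B (r : ℝ)⁻¹) * d := by
  rw [← h, nsmul_eq_mul, ← mul_assoc, ← map_natCast (MvPolynomial.C (σ := J) (R := B)) r,
    ← map_mul, ← map_natCast (algebraMap ℝ B) r, ← map_mul, inv_mul_cancel₀ (by exact_mod_cast hr),
    map_one, map_one, one_mul]

/-- a bound for the weights -/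
theorem K1_bound (L : Finset J) (c : MvPolynomial J B) : ∃ N : ℕ, ∀ n, N ≤ n → K1_h L n c = 0 := by
  refine ⟨MvPolynomial.weightedTotalDegree (K1_w L) c + 1, fun n hn => ?_⟩
  exact MvPolynomial.weightedHomogeneousComponent_eq_zero n c (by omega)

private theorem K1_ind (f : Frame J B) (L : Finset J) (hL : 2 ≤ L.card) : ∀ (N : ℕ)
    (c : J → MvPolynomial J B), (∀ i ∈ L, ∀ n, N ≤ n → K1_h L n (c i) = 0) →
    (∀ i ∈ L, ∀ k ∈ L, K1_nab f i (c k) = K1_nab f k (c i)) →
    ∃ s, ∀ i ∈ L, c i = K1_nab f i s := by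
  intro N
  induction N with
  | zero =>
    intro c h0 _
    refine ⟨0, fun i hi => ?_⟩
    rw [K1_nab_zero]
    ext I
    rw [MvPolynomial.coeff_zero]
    have := congrArg (MvPolynomial.coeff I) (h0 i hi (Finsupp.weight (K1_w L) I) (Nat.zero_le _))
    rwa [K1_coeff_h, if_pos rfl, MvPolynomial.coeff_zero] at this
  | succ N ih =>
    intro c h0 hc
    have hLne : L.Nonempty := Finset.card_pos.1 (by omega)
    -- top components
    have htop : ∀ i ∈ L, ∀ k ∈ L, MvPolynomial.X i * K1_h L N (c k)
        = MvPolynomial.X k * K1_h L N (c i) := by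
      intro i hi k hk
      have := congrArg (K1_h L (N + 1)) (hc i hi k hk)
      rwa [K1_h_nab f L N i hi, K1_h_nab f L N k hk, h0 k hk _ le_rfl, h0 i hi _ le_rfl,
        K1_dcoef_zero, K1_dcoef_zero, add_zero, add_zero] at this
    set G : MvPolynomial J B := ∑ i ∈ L, MvPolynomial.pderiv i (K1_h L N (c i)) with hG
    have hkey : ∀ k ∈ L, (N + L.card - 1) • K1_h L N (c k) = MvPolynomial.X k * G := by
      intro k hk
      have h1 : ∑ i ∈ L, MvPolynomial.pderiv i (MvPolynomial.X i * K1_h L N (c k))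
          = (L.card + N) • K1_h L N (c k) := by
        simp only [MvPolynomial.pderiv_mul, MvPolynomial.pderiv_X_self, one_mul]
        rw [Finset.sum_add_distrib, Finset.sum_const, K1_euler, add_smul]
      have h2 : ∑ i ∈ L, MvPolynomial.pderiv i (MvPolynomial.X i * K1_h L N (c k))
          = K1_h L N (c k) + MvPolynomial.X k * G := by
        rw [Finset.sum_congr rfl fun i hi => by rw [htop i hi k hk]]
        simp only [MvPolynomial.pderiv_mul]
        rw [Finset.sum_add_distrib, hG, Finset.mul_sum]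
        congr 1
        rw [Finset.sum_eq_single k]
        · rw [MvPolynomial.pderiv_X_self, one_mul]
        · intro b _ hb
          rw [MvPolynomial.pderiv_X_of_ne (Ne.symm hb), zero_mul]
        · intro h; exact absurd hk h
      rw [h1] at h2
      have h3 : (L.card + N) = (N + L.card - 1) + 1 := by omega
      rw [h3, add_smul, one_smul, add_comm] at h2
      exact add_left_cancel h2
    set s0 : MvPolynomial J B :=
      MvPolynomial.C (algebraMap ℝ B (((N + L.card - 1 : ℕ) : ℝ))⁻¹) * G with hs0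
    have hXs : ∀ k ∈ L, MvPolynomial.X k * s0 = K1_h L N (c k) := by
      intro k hk
      rw [K1_div _ (by omega) _ _ (hkey k hk), hs0]
      ring
    have hs0h : ∀ n, N ≤ n → K1_h L n s0 = 0 := by
      intro n hn
      obtain ⟨k, hk⟩ := hLne
      apply K1_X_cancel k
      rw [← K1_h_X L n k hk, hXs k hk, K1_h_h, if_neg (by omega)]
    obtain ⟨s1, hs1⟩ := ih (fun i => c i - K1_nab f i s0) (by
      intro i hi n hn
      have h1 : K1_h L n (K1_nab f i s0) = K1_h L n (c i) := by
        unfold K1_nab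
        rw [K1_h_add, K1_h_dcoef, hs0h n hn, K1_dcoef_zero, add_zero, hXs i hi, K1_h_h]
        by_cases h : n = N
        · rw [if_pos h, h]
        · rw [if_neg h, h0 i hi n (by omega)]
      rw [K1_h_sub, h1, sub_self]) (by
      intro i hi k hk
      rw [K1_nab_sub, K1_nab_sub, hc i hi k hk, K1_nab_comm f i k])
    refine ⟨s0 + s1, fun i hi => ?_⟩
    rw [K1_nab_add, ← hs1 i hi]
    ring

theorem K1 (f : Frame J B) (L : Finset J) (hL : 2 ≤ L.card) (T : J → Module.End ℝ B)
    (hT : ∀ i ∈ L, T i ∈ DOalg f.E)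
    (h : ∀ i ∈ L, ∀ k ∈ L, ∀ g, f.E i (T k g) = f.E k (T i g)) :
    ∃ S ∈ DOalg f.E, ∀ i ∈ L, ∀ g, T i g = f.E i (S g) := by
  classical
  have hc0 : ∀ i, ∃ c : MvPolynomial J B, i ∈ L → act f.E c = T i := by
    intro i
    by_cases hi : i ∈ L
    · obtain ⟨c, hc⟩ := (mem_DOalg_iff f.E f.hEE (T i)).1 (hT i hi)
      exact ⟨c, fun _ => hc⟩
    · exact ⟨0, fun h => absurd h hi⟩
  choose c hc using hc0
  choose N hN using fun i => K1_bound L (c i)
  obtain ⟨s, hs⟩ := K1_ind f L hL (∑ i, N i) c
    (fun i _ n hn => hN i n ((Finset.single_le_sum (fun j _ => Nat.zero_le (N j))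
      (Finset.mem_univ i)).trans hn)) (by
    intro i hi k hk
    apply act_injective f
    rw [K1_act_nab, K1_act_nab, hc i hi, hc k hk]
    ext x
    exact h i hi k hk x)
  refine ⟨act f.E s, (mem_DOalg_iff f.E f.hEE _).2 ⟨s, rfl⟩, fun i hi g => ?_⟩
  rw [← hc i hi, hs i hi, K1_act_nab]
  rfl

end E214
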