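import Pool.Agent.Work.MP_e214ac_gt.A.K1

/-!
# Module A/K2: closed skew families `T_ik` of differential operators are exact (three directions)

Proof.  As in `A/K1` with `m = L.card ≥ 3`, the `L`-weight `∑_{i ∈ L} I i` of monomials,
`∇_i c = X i * c + dcoef (E i) c`.  Write `T_ik = act c_ik` for `i, k ∈ L`, `c_ik = - c_ki`,
`∇_i c_kl + ∇_k c_li + ∇_l c_ik = 0` (`act_injective`).

Claim, by induction on `N`: if all weighted homogeneous components of the `c_ik` of weight `≥ N`
vanish, there are `s_k` (`k ∈ L`) with `c_ik = ∇_i s_k - ∇_k s_i` for all `i, k ∈ L`.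
* `N = 0`: everything is zero.
* `N + 1`: let `C_ik` be the component of weight `N` of `c_ik`.  The component of weight `N + 1` of
  the hypothesis is `X i * C_kl + X k * C_li + X l * C_ik = 0`.  Apply `pderiv i` and sum over
  `i ∈ L`, with `G_k = ∑_{i ∈ L} pderiv i C_ik`:
  `∑_i pderiv i (X i * C_kl) = m C_kl + N C_kl` (Euler),
  `∑_i pderiv i (X k * C_li) = C_lk + X k * ∑_i pderiv i C_li = - C_kl - X k * G_l`,
  `∑_i pderiv i (X l * C_ik) = C_lk + X l * G_k = - C_kl + X l * G_k`.
  Hence `(N + m - 2) C_kl = X k * G_l - X l * G_k`.  Put `s⁰_k = (N + m - 2)⁻¹ • G_k` (positive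
  since `m ≥ 3`), homogeneous of weight `N - 1` (zero if `N = 0`).  The family
  `c_ik - (∇_i s⁰_k - ∇_k s⁰_i)` is skew, closed (the `∇` commute) and has no component of weight
  `≥ N`.  Induct and add.
-/

set_option autoImplicit false

namespace E214

variable {J : Type} [Fintype J] [DecidableEq J] {B : Type} [CommRing B] [Algebra ℝ B]

private theorem K2_h_pderiv (L : Finset J) (n N : ℕ) (hn : N ≤ n) (i : J) (hi : i ∈ L)
    (c : MvPolynomial J B) : K1_h L n (MvPolynomial.pderiv i (K1_h L N c)) = 0 := by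
  ext I
  rw [K1_coeff_h, MvPolynomial.coeff_pderiv, K1_coeff_h, map_add, K1_weight_single L i hi,
    MvPolynomial.coeff_zero]
  by_cases h : Finsupp.weight (K1_w L) I = n
  · rw [if_pos h, h, if_neg (by omega), zero_mul]
  · rw [if_neg h]

private theorem K2_h_sum (L : Finset J) (n : ℕ) (t : Finset J) (c : J → MvPolynomial J B) :
    K1_h L n (∑ i ∈ t, c i) = ∑ i ∈ t, K1_h L n (c i) := map_sum _ _ _

private theorem K2_h_Cmul (L : Finset J) (n : ℕ) (b : B) (c : MvPolynomial J B) :
    K1_h L n (MvPolynomial.C b * c) = MvPolynomial.C b * K1_h L n c :=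
  MvPolynomial.weightedHomogeneousComponent_C_mul c n b

private theorem K2_h_X_mul (L : Finset J) (n : ℕ) (i : J) (hi : i ∈ L) (c : MvPolynomial J B) :
    K1_h L n (MvPolynomial.X i * c) = if n = 0 then 0 else MvPolynomial.X i * K1_h L (n - 1) c := by
  rcases n with _ | n
  · rw [if_pos rfl]
    ext I
    rw [K1_coeff_h, MvPolynomial.coeff_X_mul', MvPolynomial.coeff_zero]
    by_cases h : i ∈ I.support
    · have h1 : Finsupp.weight (K1_w L) I
          = Finsupp.weight (K1_w L) (I - Finsupp.single i 1) + 1 := by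
        conv_lhs => rw [show I = (I - Finsupp.single i 1) + Finsupp.single i 1 from
          (tsub_add_cancel_of_le (Finsupp.single_le_iff.2
            (Nat.one_le_iff_ne_zero.2 (Finsupp.mem_support_iff.1 h)))).symm]
        rw [map_add, K1_weight_single L i hi]
      rw [h1, if_neg (by omega)]
    · rw [if_neg h]; simp
  · rw [if_neg (by omega), K1_h_X L n i hi, Nat.add_sub_cancel]

private theorem K2_ind (f : Frame J B) (L : Finset J) (hL : 3 ≤ L.card) : ∀ (N : ℕ)
    (c : J → J → MvPolynomial J B), (∀ i ∈ L, ∀ k ∈ L, ∀ n, N ≤ n → K1_h L n (c i k) = 0) →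
    (∀ i ∈ L, ∀ k ∈ L, c i k = - c k i) →
    (∀ i ∈ L, ∀ k ∈ L, ∀ l ∈ L,
      K1_nab f i (c k l) + K1_nab f k (c l i) + K1_nab f l (c i k) = 0) →
    ∃ s : J → MvPolynomial J B, ∀ i ∈ L, ∀ k ∈ L, c i k = K1_nab f i (s k) - K1_nab f k (s i) := by
  intro N
  induction N with
  | zero =>
    intro c h0 _ _
    refine ⟨fun _ => 0, fun i hi k hk => ?_⟩
    rw [K1_nab_zero, K1_nab_zero, sub_self]
    ext I
    rw [MvPolynomial.coeff_zero]
    have := congrArg (MvPolynomial.coeff I)
      (h0 i hi k hk (Finsupp.weight (K1_w L) I) (Nat.zero_le _))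
    rwa [K1_coeff_h, if_pos rfl, MvPolynomial.coeff_zero] at this
  | succ N ih =>
    intro c h0 hsk hc
    set C : J → J → MvPolynomial J B := fun i k => K1_h L N (c i k) with hC
    have hCsk : ∀ i ∈ L, ∀ k ∈ L, C i k = - C k i := by
      intro i hi k hk
      simp only [hC]
      rw [hsk i hi k hk, K1_h_neg]
    -- top components
    have htop : ∀ i ∈ L, ∀ k ∈ L, ∀ l ∈ L, MvPolynomial.X i * C k l
        + MvPolynomial.X k * C l i + MvPolynomial.X l * C i k = 0 := by
      intro i hi k hk l hl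
      have := congrArg (K1_h L (N + 1)) (hc i hi k hk l hl)
      rwa [K1_h_add, K1_h_add, K1_h_nab f L N i hi, K1_h_nab f L N k hk, K1_h_nab f L N l hl,
        h0 k hk l hl _ le_rfl, h0 l hl i hi _ le_rfl, h0 i hi k hk _ le_rfl,
        K1_dcoef_zero, K1_dcoef_zero, K1_dcoef_zero, add_zero, add_zero, add_zero, K1_h_zero]
        at this
    set G : J → MvPolynomial J B := fun k => ∑ i ∈ L, MvPolynomial.pderiv i (C i k) with hG
    have hkey : ∀ k ∈ L, ∀ l ∈ L, (N + L.card - 2) • C k l
        = MvPolynomial.X k * G l - MvPolynomial.X l * G k := by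
      intro k hk l hl
      have h1 : ∑ i ∈ L, MvPolynomial.pderiv i (MvPolynomial.X i * C k l)
          = (L.card + N) • C k l := by
        simp only [MvPolynomial.pderiv_mul, MvPolynomial.pderiv_X_self, one_mul]
        rw [Finset.sum_add_distrib, Finset.sum_const, hC, K1_euler, add_smul]
      have hδ : ∀ (a : J) (ha : a ∈ L) (d : J → MvPolynomial J B),
          ∑ i ∈ L, MvPolynomial.pderiv i (MvPolynomial.X a * d i)
            = d a + MvPolynomial.X a * ∑ i ∈ L, MvPolynomial.pderiv i (d i) := by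
        intro a ha d
        simp only [MvPolynomial.pderiv_mul]
        rw [Finset.sum_add_distrib, Finset.mul_sum]
        congr 1
        rw [Finset.sum_eq_single a]
        · rw [MvPolynomial.pderiv_X_self, one_mul]
        · intro b _ hb
          rw [MvPolynomial.pderiv_X_of_ne (Ne.symm hb), zero_mul]
        · intro h; exact absurd ha h
      have h2 := hδ k hk (fun i => C l i)
      have h3 := hδ l hl (fun i => C i k)
      have h4 : ∑ i ∈ L, MvPolynomial.pderiv i (C l i) = - G l := by
        simp only [hG]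
        rw [← Finset.sum_neg_distrib]
        refine Finset.sum_congr rfl fun i hi => ?_
        rw [hCsk l hl i hi, map_neg]
      have h5 : ∑ i ∈ L, MvPolynomial.pderiv i (MvPolynomial.X i * C k l)
          + ∑ i ∈ L, MvPolynomial.pderiv i (MvPolynomial.X k * C l i)
          + ∑ i ∈ L, MvPolynomial.pderiv i (MvPolynomial.X l * C i k) = 0 := by
        rw [← Finset.sum_add_distrib, ← Finset.sum_add_distrib]
        refine Finset.sum_eq_zero fun i hi => ?_
        rw [← map_add, ← map_add, htop i hi k hk l hl, map_zero]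
      rw [h1, h2, h3, h4] at h5
      change (L.card + N) • C k l + (C l k + MvPolynomial.X k * -G l)
        + (C l k + MvPolynomial.X l * G k) = 0 at h5
      rw [hCsk l hl k hk] at h5
      have h6 : (L.card + N) = (N + L.card - 2) + 2 := by omega
      rw [h6, add_smul] at h5
      have h7 : (2 : ℕ) • C k l = C k l + C k l := two_nsmul _
      rw [h7] at h5
      linear_combination h5
    set r : MvPolynomial J B :=
      MvPolynomial.C (algebraMap ℝ B (((N + L.card - 2 : ℕ) : ℝ))⁻¹) with hr
    set s0 : J → MvPolynomial J B := fun k => r * G k with hs0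
    have hXs : ∀ k ∈ L, ∀ l ∈ L,
        MvPolynomial.X k * s0 l - MvPolynomial.X l * s0 k = C k l := by
      intro k hk l hl
      rw [K1_div _ (by omega) _ _ (hkey k hk l hl), hs0]
      ring
    have hs0h : ∀ k ∈ L, ∀ n, N ≤ n → K1_h L n (s0 k) = 0 := by
      intro k hk n hn
      simp only [hs0, hr, hG]
      rw [K2_h_Cmul, K2_h_sum, Finset.sum_eq_zero, mul_zero]
      intro i hi
      exact K2_h_pderiv L n N hn i hi _
    obtain ⟨s1, hs1⟩ := ih (fun i k => c i k - (K1_nab f i (s0 k) - K1_nab f k (s0 i))) (by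
      intro i hi k hk n hn
      have h1 : K1_h L n (K1_nab f i (s0 k) - K1_nab f k (s0 i)) = K1_h L n (c i k) := by
        have h2 : K1_nab f i (s0 k) - K1_nab f k (s0 i)
            = C i k + dcoef (f.E i) (s0 k) - dcoef (f.E k) (s0 i) := by
          rw [← hXs i hi k hk]
          unfold K1_nab
          ring
        rw [h2, K1_h_sub, K1_h_add, K1_h_dcoef, K1_h_dcoef, hs0h k hk n hn, hs0h i hi n hn,
          K1_dcoef_zero, K1_dcoef_zero, add_zero, sub_zero]
        simp only [hC]
        rw [K1_h_h]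
        by_cases h : n = N
        · rw [if_pos h, h]
        · rw [if_neg h, h0 i hi k hk n (by omega)]
      rw [K1_h_sub, h1, sub_self]) (by
      intro i hi k hk
      rw [hsk i hi k hk]
      ring) (by
      intro i hi k hk l hl
      simp only [K1_nab_sub]
      rw [K1_nab_comm f i k, K1_nab_comm f i l, K1_nab_comm f k l]
      linear_combination hc i hi k hk l hl)
    refine ⟨fun k => s0 k + s1 k, fun i hi k hk => ?_⟩
    have h1 := hs1 i hi k hk
    rw [K1_nab_add, K1_nab_add]
    linear_combination h1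

theorem K2 (f : Frame J B) (L : Finset J) (hL : 3 ≤ L.card) (T : J → J → Module.End ℝ B)
    (hT : ∀ i ∈ L, ∀ k ∈ L, T i k ∈ DOalg f.E)
    (hskew : ∀ i ∈ L, ∀ k ∈ L, T i k = - T k i)
    (h : ∀ i ∈ L, ∀ k ∈ L, ∀ l ∈ L, ∀ g,
      f.E i (T k l g) + f.E k (T l i g) + f.E l (T i k g) = 0) :
    ∃ S : J → Module.End ℝ B, (∀ k ∈ L, S k ∈ DOalg f.E) ∧
      ∀ i ∈ L, ∀ k ∈ L, ∀ g, T i k g = f.E i (S k g) - f.E k (S i g) := by
  classical
  have hc0 : ∀ i k, ∃ c : MvPolynomial J B, i ∈ L → k ∈ L → act f.E c = T i k := by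
    intro i k
    by_cases hi : i ∈ L ∧ k ∈ L
    · obtain ⟨c, hc⟩ := (mem_DOalg_iff f.E f.hEE (T i k)).1 (hT i hi.1 k hi.2)
      exact ⟨c, fun _ _ => hc⟩
    · exact ⟨0, fun h1 h2 => absurd ⟨h1, h2⟩ hi⟩
  choose c hc using hc0
  choose N hN using fun i k => K1_bound L (c i k)
  obtain ⟨s, hs⟩ := K2_ind f L hL (∑ i, ∑ k, N i k) c
    (fun i _ k _ n hn => hN i k n (((Finset.single_le_sum (f := fun k => N i k)
      (fun j _ => Nat.zero_le _) (Finset.mem_univ k)).trans (Finset.single_le_sum
      (f := fun i => ∑ k, N i k) (fun j _ => Nat.zero_le _) (Finset.mem_univ i))).trans hn)) (by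
    intro i hi k hk
    apply act_injective f
    rw [act_neg, hc i k hi hk, hc k i hk hi]
    exact hskew i hi k hk) (by
    intro i hi k hk l hl
    apply act_injective f
    rw [act_add, act_add, K1_act_nab, K1_act_nab, K1_act_nab, hc k l hk hl, hc l i hl hi,
      hc i k hi hk, act_zero]
    ext x
    exact h i hi k hk l hl x)
  refine ⟨fun k => act f.E (s k), fun k _ => (mem_DOalg_iff f.E f.hEE _).2 ⟨s k, rfl⟩,
    fun i hi k hk g => ?_⟩
  rw [← hc i k hi hk, hs i hi k hk, act_sub, K1_act_nab, K1_act_nab]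
  rfl

end E214
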