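import Pool.Agent.Work.MP_e214ac_gt.A.SymF

/-!
# Module A/Res: restriction of differential operators along a homomorphism of algebras

Proof.
* `Epow_map`: `E' i (ρ f) = ρ (E i f)` implies `Epow E' I (ρ f) = ρ (Epow E I f)` (induction over the
  list of factors).
* `exists_restrict`: `T = act E c`; put `T' = act E' (MvPolynomial.map ρ c)`.  Since
  `mEnd (ρ b) (ρ f) = ρ (b f)`, `T' (ρ f) = ρ (T f)`.
  (`(MvPolynomial.map ρ c).coeff I = ρ (c.coeff I)`; enlarge the index set of the sum to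
  `c.support`; or use additivity `act_add`, `act_monomial` and induction on `c`.)
* `restrict_unique`: `T'` kills all `ρ (psiPow ψ I) = psiPow ψ' I`, so its symbol is zero
  (`act_faithful`), so `T' = act 0 = 0`.
-/

set_option autoImplicit false

namespace E214

variable {J : Type} [Fintype J] [DecidableEq J] {B : Type} [CommRing B] [Algebra ℝ B]
  {C : Type} [CommRing C] [Algebra ℝ C]

private theorem res_pow (f : Frame J B) (f' : Frame J C) (ρ : B →ₐ[ℝ] C)
    (hE : ∀ i g, f'.E i (ρ g) = ρ (f.E i g)) (i : J) (n : ℕ) (g : B) :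
    (dEnd (f'.E i) ^ n) (ρ g) = ρ ((dEnd (f.E i) ^ n) g) := by
  induction n generalizing g with
  | zero => simp
  | succ n ih =>
    rw [pow_succ, pow_succ]
    change (dEnd (f'.E i) ^ n) (f'.E i (ρ g)) = ρ ((dEnd (f.E i) ^ n) (f.E i g))
    rw [hE, ih]

private theorem res_Epow (f : Frame J B) (f' : Frame J C) (ρ : B →ₐ[ℝ] C)
    (hE : ∀ i g, f'.E i (ρ g) = ρ (f.E i g)) (I : J →₀ ℕ) (g : B) :
    Epow f'.E I (ρ g) = ρ (Epow f.E I g) := by
  unfold Epow
  induction (Finset.univ : Finset J).toList generalizing g with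
  | nil => simp
  | cons a l ih =>
    rw [List.map_cons, List.prod_cons, List.map_cons, List.prod_cons]
    change (dEnd (f'.E a) ^ I a) ((List.map (fun j => dEnd (f'.E j) ^ I j) l).prod (ρ g))
      = ρ ((dEnd (f.E a) ^ I a) ((List.map (fun j => dEnd (f.E j) ^ I j) l).prod g))
    rw [ih, res_pow f f' ρ hE]

theorem exists_restrict (f : Frame J B) (f' : Frame J C) (ρ : B →ₐ[ℝ] C)
    (hE : ∀ i g, f'.E i (ρ g) = ρ (f.E i g)) (T : Module.End ℝ B) (hT : T ∈ DOalg f.E) :
    ∃ T' ∈ DOalg f'.E, ∀ g, T' (ρ g) = ρ (T g) := by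
  obtain ⟨c, rfl⟩ := (mem_DOalg_iff f.E f.hEE T).1 hT
  refine ⟨∑ I ∈ c.support, act f'.E (MvPolynomial.monomial I (ρ (c.coeff I))), ?_, ?_⟩
  · exact Subalgebra.sum_mem _ fun I _ => (mem_DOalg_iff f'.E f'.hEE _).2 ⟨_, rfl⟩
  · intro g
    unfold act
    rw [LinearMap.sum_apply, LinearMap.sum_apply, map_sum]
    refine Finset.sum_congr rfl fun I _ => ?_
    change act f'.E _ (ρ g) = _
    rw [act_monomial]
    change ρ (c.coeff I) * Epow f'.E I (ρ g) = ρ (c.coeff I * Epow f.E I g)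
    rw [res_Epow f f' ρ hE, map_mul]

theorem restrict_unique (f : Frame J B) (f' : Frame J C) (ρ : B →ₐ[ℝ] C)
    (hψ : ∀ i, f'.ψ i = ρ (f.ψ i)) (T' : Module.End ℝ C) (hT' : T' ∈ DOalg f'.E)
    (h : ∀ g, T' (ρ g) = 0) : T' = 0 := by
  obtain ⟨c, rfl⟩ := (mem_DOalg_iff f'.E f'.hEE T').1 hT'
  have h1 : c = 0 := by
    apply act_faithful f'
    intro I
    have h2 : psiPow f'.ψ I = ρ (psiPow f.ψ I) := by
      unfold psiPow
      rw [map_prod]
      refine Finset.prod_congr rfl fun j _ => ?_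
      rw [hψ, map_pow]
    rw [h2, h]
  rw [h1, act_zero]

end E214
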