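import Pool.Agent.Work.MP_e214ac_gt.SymbDefs

/-!
# Module A/SymA: the algebra of symbols

Here `E : J → Derivation ℝ B B` are commuting derivations, `act E c = ∑_I c_I E^I`.

Proof.
* `coeff_dcoef`: expand the sum, `MvPolynomial.coeff_monomial`, `Finset.sum_ite_eq`; if `I` is not
  in the support the coefficient is `0` and `D 0 = 0`.
* `act_monomial`, `act_zero`, `act_add`, `act_C_mul`: the sum over the support may be replaced by a
  sum over any larger finite set (the other terms have `mEnd 0 = 0`); `mEnd` is additive and
  multiplicative (`mEnd (b * c) = mEnd b * mEnd c`).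
* `Epow_single_add`: `dEnd (E i) * Epow E I = Epow E (Finsupp.single i 1 + I)`: the factors commute
  (`hEE`), so the list product may be written as a `Finset.noncommProd`, or: prove by induction on
  the list `(Finset.univ).toList` (no duplicates) that `dEnd (E i)` moves to the place of `i`.
* `dEnd_act`: `dEnd (E i) * mEnd b = mEnd b * dEnd (E i) + mEnd (E i b)` (Leibniz), hence
  `dEnd (E i) * act E c = ∑ mEnd c_I * Epow (single i 1 + I) + ∑ mEnd (E i c_I) * Epow I`; use
  linearity of `act` on `c = ∑ monomial I c_I` (induction `MvPolynomial.induction_on'` or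
  `Finsupp` induction; both sides are additive in `c`).
* `mem_DOalg_iff`: `act E c` is a sum of products of generators.  Conversely the set
  `{act E c}` contains `1 = act E 1` and is a left ideal for the generators (`act_C_mul`,
  `dEnd_act`), closed under addition and real multiples; so every product `g_1 ⋯ g_m * act E 1` of
  generators is in it; use `Algebra.adjoin_induction` for the statement
  `∀ T ∈ DOalg E, ∀ c, ∃ c', act E c' = T * act E c`.
-/

set_option autoImplicit false

namespace E214

variable {J : Type} [Fintype J] [DecidableEq J] {B : Type} [CommRing B] [Algebra ℝ B]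

theorem coeff_dcoef (D : Derivation ℝ B B) (c : MvPolynomial J B) (I : J →₀ ℕ) :
    (dcoef D c).coeff I = D (c.coeff I) := by
  unfold dcoef
  rw [MvPolynomial.coeff_sum]
  simp only [MvPolynomial.coeff_monomial]
  rw [Finset.sum_ite_eq']
  split_ifs with h
  · rfl
  · rw [MvPolynomial.notMem_support_iff.1 h, map_zero]

private theorem symA_mEnd_zero : (mEnd (0 : B)) = 0 := by
  ext x; simp [mEnd]

private theorem symA_mEnd_add (b c : B) : mEnd (b + c) = mEnd b + mEnd c := by
  ext x; simp [mEnd, add_mul]

private theorem symA_mEnd_mul (b c : B) : mEnd (b * c) = mEnd b * mEnd c := by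
  ext x; simp [mEnd, mul_assoc]

private theorem symA_act_eq (E : J → Derivation ℝ B B) (c : MvPolynomial J B)
    (s : Finset (J →₀ ℕ)) (hs : c.support ⊆ s) :
    act E c = ∑ I ∈ s, mEnd (c.coeff I) * Epow E I := by
  unfold act
  refine Finset.sum_subset hs fun I _ hI => ?_
  rw [MvPolynomial.notMem_support_iff.1 hI, symA_mEnd_zero, zero_mul]

theorem act_monomial (E : J → Derivation ℝ B B) (I : J →₀ ℕ) (b : B) :
    act E (MvPolynomial.monomial I b) = mEnd b * Epow E I := by
  classical
  rw [symA_act_eq E _ {I} MvPolynomial.support_monomial_subset, Finset.sum_singleton,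
    MvPolynomial.coeff_monomial, if_pos rfl]

theorem act_zero (E : J → Derivation ℝ B B) : act E 0 = 0 := by
  unfold act
  simp

theorem act_one (E : J → Derivation ℝ B B) : act E 1 = 1 := by
  rw [show (1 : MvPolynomial J B) = MvPolynomial.monomial 0 1 from rfl, act_monomial]
  have h1 : mEnd (1 : B) = 1 := by
    ext x; simp [mEnd]
  have h2 : Epow E 0 = 1 := by
    unfold Epow
    apply List.prod_eq_one
    intro x hx
    obtain ⟨j, _, rfl⟩ := List.mem_map.1 hx
    simp
  rw [h1, h2, one_mul]

theorem act_add (E : J → Derivation ℝ B B) (c c' : MvPolynomial J B) :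
    act E (c + c') = act E c + act E c' := by
  classical
  rw [symA_act_eq E (c + c') (c.support ∪ c'.support) MvPolynomial.support_add,
    symA_act_eq E c (c.support ∪ c'.support) Finset.subset_union_left,
    symA_act_eq E c' (c.support ∪ c'.support) Finset.subset_union_right,
    ← Finset.sum_add_distrib]
  refine Finset.sum_congr rfl fun I _ => ?_
  rw [MvPolynomial.coeff_add, symA_mEnd_add, add_mul]

theorem act_neg (E : J → Derivation ℝ B B) (c : MvPolynomial J B) :
    act E (-c) = - act E c := by
  have h := act_add E c (-c)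
  rw [add_neg_cancel, act_zero] at h
  exact (neg_eq_of_add_eq_zero_right h.symm).symm

theorem act_sub (E : J → Derivation ℝ B B) (c c' : MvPolynomial J B) :
    act E (c - c') = act E c - act E c' := by
  rw [sub_eq_add_neg, act_add, act_neg, sub_eq_add_neg]

theorem act_sum (E : J → Derivation ℝ B B) {α : Type} (t : Finset α) (c : α → MvPolynomial J B) :
    act E (∑ a ∈ t, c a) = ∑ a ∈ t, act E (c a) := by
  classical
  induction t using Finset.induction_on with
  | empty => simp [act_zero]
  | insert a s ha ih => rw [Finset.sum_insert ha, Finset.sum_insert ha, act_add, ih]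

theorem act_C_mul (E : J → Derivation ℝ B B) (b : B) (c : MvPolynomial J B) :
    act E (MvPolynomial.C b * c) = mEnd b * act E c := by
  have hs : (MvPolynomial.C b * c).support ⊆ c.support := by
    intro I hI
    rw [MvPolynomial.mem_support_iff, MvPolynomial.coeff_C_mul] at hI
    rw [MvPolynomial.mem_support_iff]
    exact fun h => hI (by rw [h, mul_zero])
  rw [symA_act_eq E _ c.support hs, act, Finset.mul_sum]
  refine Finset.sum_congr rfl fun I _ => ?_
  rw [MvPolynomial.coeff_C_mul, symA_mEnd_mul, mul_assoc]

private theorem symA_comm (E : J → Derivation ℝ B B) (hEE : ∀ i j f, E i (E j f) = E j (E i f))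
    (i j : J) : Commute (dEnd (E i)) (dEnd (E j)) := by
  change dEnd (E i) * dEnd (E j) = dEnd (E j) * dEnd (E i)
  ext x
  exact hEE i j x

private theorem symA_list (E : J → Derivation ℝ B B) (hEE : ∀ i j f, E i (E j f) = E j (E i f))
    (i : J) (I : J →₀ ℕ) : ∀ l : List J, l.Nodup →
    (l.map fun j => dEnd (E j) ^ ((Finsupp.single i 1 + I : J →₀ ℕ) j)).prod
      = if i ∈ l then dEnd (E i) * (l.map fun j => dEnd (E j) ^ (I j)).prod
        else (l.map fun j => dEnd (E j) ^ (I j)).prod := by
  intro l
  induction l with
  | nil => intro _; simp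
  | cons a l ih =>
    intro hnd
    rw [List.nodup_cons] at hnd
    rw [List.map_cons, List.prod_cons, ih hnd.2, List.map_cons, List.prod_cons]
    by_cases hia : i = a
    · subst hia
      rw [if_neg hnd.1, if_pos (List.mem_cons_self ..), Finsupp.add_apply, Finsupp.single_eq_same,
        pow_add, pow_one, mul_assoc]
    · have h1 : (Finsupp.single i 1 + I : J →₀ ℕ) a = I a := by
        rw [Finsupp.add_apply, Finsupp.single_eq_of_ne (Ne.symm hia), zero_add]
      rw [h1]
      by_cases hil : i ∈ l
      · rw [if_pos hil, if_pos (List.mem_cons_of_mem _ hil), ← mul_assoc, ← mul_assoc,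
          ((symA_comm E hEE i a).pow_right (I a)).eq]
      · rw [if_neg hil, if_neg (by simp [hia, hil])]

theorem Epow_single_add (E : J → Derivation ℝ B B) (hEE : ∀ i j f, E i (E j f) = E j (E i f))
    (i : J) (I : J →₀ ℕ) :
    dEnd (E i) * Epow E I = Epow E (Finsupp.single i 1 + I) := by
  unfold Epow
  rw [symA_list E hEE i I _ (Finset.nodup_toList _), if_pos (by simp)]

theorem dEnd_act (E : J → Derivation ℝ B B) (hEE : ∀ i j f, E i (E j f) = E j (E i f))
    (i : J) (c : MvPolynomial J B) :
    dEnd (E i) * act E c = act E (MvPolynomial.X i * c + dcoef (E i) c) := by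
  have hleib : ∀ b : B, dEnd (E i) * mEnd b = mEnd b * dEnd (E i) + mEnd (E i b) := by
    intro b
    ext x
    simp [dEnd, mEnd, mul_comm]
  have h1 : (MvPolynomial.X i * c : MvPolynomial J B)
      = ∑ I ∈ c.support, MvPolynomial.monomial (Finsupp.single i 1 + I) (c.coeff I) := by
    conv_lhs => rw [c.as_sum]
    rw [Finset.mul_sum]
    refine Finset.sum_congr rfl fun I _ => ?_
    rw [MvPolynomial.X, MvPolynomial.monomial_mul, one_mul]
  rw [act_add, h1, act_sum, dcoef, act_sum, ← Finset.sum_add_distrib]
  unfold act
  rw [Finset.mul_sum]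
  refine Finset.sum_congr rfl fun I _ => ?_
  change dEnd (E i) * (mEnd (c.coeff I) * Epow E I) = act E _ + act E _
  rw [act_monomial, act_monomial, ← mul_assoc, hleib, add_mul, mul_assoc, Epow_single_add E hEE]

theorem mem_DOalg_iff (E : J → Derivation ℝ B B) (hEE : ∀ i j f, E i (E j f) = E j (E i f))
    (T : Module.End ℝ B) : T ∈ DOalg E ↔ ∃ c, act E c = T := by
  constructor
  · intro hT
    have key : ∀ T ∈ DOalg E, ∀ c, ∃ c', act E c' = T * act E c := by
      intro T hT
      unfold DOalg at hT
      induction hT using Algebra.adjoin_induction with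
      | mem x hx =>
        intro c
        rcases hx with ⟨b, rfl⟩ | ⟨j, rfl⟩
        · exact ⟨_, act_C_mul E b c⟩
        · exact ⟨_, (dEnd_act E hEE j c).symm⟩
      | algebraMap r =>
        intro c
        refine ⟨MvPolynomial.C (algebraMap ℝ B r) * c, ?_⟩
        rw [act_C_mul]
        congr 1
        ext x
        simp [mEnd, Algebra.smul_def]
      | add x y _ _ hx hy =>
        intro c
        obtain ⟨c1, h1⟩ := hx c
        obtain ⟨c2, h2⟩ := hy c
        exact ⟨c1 + c2, by rw [act_add, h1, h2, add_mul]⟩
      | mul x y _ _ hx hy =>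
        intro c
        obtain ⟨c1, h1⟩ := hy c
        obtain ⟨c2, h2⟩ := hx c1
        exact ⟨c2, by rw [h2, h1, mul_assoc]⟩
    obtain ⟨c, hc⟩ := key T hT 1
    exact ⟨c, by rw [hc, act_one, mul_one]⟩
  · rintro ⟨c, rfl⟩
    unfold act
    refine Subalgebra.sum_mem _ fun I _ => Subalgebra.mul_mem _ ?_ ?_
    · exact Algebra.subset_adjoin (Set.mem_union_left _ (Set.mem_range_self _))
    · unfold Epow
      refine Subalgebra.list_prod_mem _ ?_
      intro x hx
      obtain ⟨j, _, rfl⟩ := List.mem_map.1 hx
      exact Subalgebra.pow_mem _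
        (Algebra.subset_adjoin (Set.mem_union_right _ (Set.mem_range_self j))) _

end E214
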