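import Pool.Agent.Work.MP_e214ac_gt.A.SymA

/-!
# Module A/SymF: the symbol is determined by the action on the monomials `ψ^I`

Proof.
* `Epow_psiPow`: every `E j` is a derivation with `E j (ψ i) = δ_ij`, so `E j ^ m` of `ψ^K` is
  `(K j).descFactorial m` times `ψ^(K - m e_j)` (real multiple, zero if `m > K j`); induct over the
  list of the factors.  Only two consequences are needed: `E^I ψ^K = 0` unless `I ≤ K`, and
  `E^I ψ^I = ∏ (I j)!`.
* `act_faithful`: suppose `c ≠ 0` and let `I` be an element of the support with minimal total degree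
  `∑ I j`.  Every other `K` in the support is not `≤ I` (otherwise its degree would be smaller), so
  `act c (ψ^I) = c_I * ∏ (I j)!`, and `∏ (I j)!` is invertible in the `ℝ`-algebra `B`.  Hence
  `c_I = 0`, a contradiction.
* `trans_kill`: write `T = act c`.  As before, by induction on the total degree, `c_I = 0` for all
  `I` with `I i = 0` for `i ∈ L` (evaluate `T` on `ψ^I`: the terms `K ≤ I` are again supported off
  `L`).  If `E i f = 0` for `i ∈ L` then `E^I f = 0` for all `I` with `I i ≠ 0` for some `i ∈ L`
  (the factors commute: move one `E i` to the right), so `T f = 0`.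
* `comm_psi`: `[act c, ψ_i] = act (pderiv i c)` (not needed elsewhere; skip it if you like).
-/

set_option autoImplicit false

namespace E214

variable {J : Type} [Fintype J] [DecidableEq J] {B : Type} [CommRing B] [Algebra ℝ B]

private theorem symF_psi_ne (f : Frame J B) (i : J) (K : J →₀ ℕ) (s : Finset J) (hi : i ∉ s) :
    f.E i (∏ j ∈ s, f.ψ j ^ (K j)) = 0 := by
  classical
  induction s using Finset.induction_on with
  | empty => simp
  | insert a s ha ih =>
    have hia : i ≠ a := fun h => hi (h ▸ Finset.mem_insert_self _ _)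
    have his : i ∉ s := fun h => hi (Finset.mem_insert_of_mem h)
    rw [Finset.prod_insert ha, Derivation.leibniz, ih his, Derivation.leibniz_pow, f.hEψ,
      if_neg hia]
    simp

private theorem symF_E_psi (f : Frame J B) (i : J) (K : J →₀ ℕ) :
    f.E i (psiPow f.ψ K) = (K i) • psiPow f.ψ (K - Finsupp.single i 1) := by
  classical
  unfold psiPow
  rw [← Finset.mul_prod_erase Finset.univ _ (Finset.mem_univ i),
    ← Finset.mul_prod_erase Finset.univ (fun j => f.ψ j ^ ((K - Finsupp.single i 1 : J →₀ ℕ) j))
      (Finset.mem_univ i),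
    Derivation.leibniz, symF_psi_ne f i K _ (Finset.notMem_erase i _), Derivation.leibniz_pow,
    f.hEψ, if_pos rfl]
  have h1 : ∏ x ∈ Finset.univ.erase i, f.ψ x ^ ((K - Finsupp.single i 1 : J →₀ ℕ) x)
      = ∏ x ∈ Finset.univ.erase i, f.ψ x ^ (K x) := by
    refine Finset.prod_congr rfl fun x hx => ?_
    rw [Finsupp.tsub_apply, Finsupp.single_eq_of_ne (Finset.ne_of_mem_erase hx), Nat.sub_zero]
  rw [h1, Finsupp.tsub_apply, Finsupp.single_eq_same]
  simp only [smul_eq_mul, mul_zero, zero_add, mul_one, nsmul_eq_mul]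
  ring

private theorem symF_psi_zero (ψ : J → B) : psiPow ψ 0 = 1 := by
  simp [psiPow]

private theorem symF_Epow_zero (E : J → Derivation ℝ B B) : Epow E 0 = 1 := by
  unfold Epow
  apply List.prod_eq_one
  intro x hx
  obtain ⟨j, _, rfl⟩ := List.mem_map.1 hx
  simp

private theorem symF_split (I : J →₀ ℕ) (i : J) (hi : I i ≠ 0) :
    I = Finsupp.single i 1 + (I - Finsupp.single i 1) := by
  classical
  ext j
  rw [Finsupp.add_apply, Finsupp.tsub_apply]
  by_cases h : j = i
  · subst h
    rw [Finsupp.single_eq_same]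
    omega
  · rw [Finsupp.single_eq_of_ne h]
    omega

private theorem symF_Epow_psi (f : Frame J B) : ∀ (n : ℕ) (I K : J →₀ ℕ), ∑ j, I j = n →
    Epow f.E I (psiPow f.ψ K)
      = (∏ j, (K j).descFactorial (I j)) • psiPow f.ψ (K - I) := by
  classical
  intro n
  induction n with
  | zero =>
    intro I K h
    have hI : I = 0 := by
      ext j
      have := Finset.sum_eq_zero_iff.1 h j (Finset.mem_univ j)
      simpa using this
    subst hI
    rw [symF_Epow_zero]
    simp
  | succ n ih =>
    intro I K h
    have hne : ∃ i, I i ≠ 0 := by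
      by_contra hc
      push Not at hc
      rw [Finset.sum_eq_zero fun j _ => hc j] at h
      omega
    obtain ⟨i, hi⟩ := hne
    set I' := I - Finsupp.single i 1 with hI'
    have hI := symF_split I i hi
    rw [← hI'] at hI
    have hsum : ∑ j, I' j = n := by
      rw [hI] at h
      simp only [Finsupp.add_apply, Finset.sum_add_distrib] at h
      rw [show ∑ x, (Finsupp.single i 1 : J →₀ ℕ) x = 1 by
        rw [Finset.sum_eq_single i]
        · simp
        · intro b _ hb
          rw [Finsupp.single_eq_of_ne hb]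
        · intro hh; exact absurd (Finset.mem_univ i) hh] at h
      omega
    have hcomp : Epow f.E I (psiPow f.ψ K) = f.E i (Epow f.E I' (psiPow f.ψ K)) := by
      conv_lhs => rw [hI, ← Epow_single_add f.E f.hEE]
      rfl
    rw [hcomp, ih I' K hsum, map_nsmul, symF_E_psi, smul_smul]
    have h1 : K - I' - Finsupp.single i 1 = K - I := by
      rw [tsub_tsub, add_comm, ← hI]
    have h2 : (∏ j, (K j).descFactorial (I' j)) * (K - I' : J →₀ ℕ) i
        = ∏ j, (K j).descFactorial (I j) := by
      rw [← Finset.mul_prod_erase Finset.univ _ (Finset.mem_univ i),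
        ← Finset.mul_prod_erase Finset.univ (fun j => (K j).descFactorial (I j))
          (Finset.mem_univ i)]
      have h3 : ∏ x ∈ Finset.univ.erase i, (K x).descFactorial (I' x)
          = ∏ x ∈ Finset.univ.erase i, (K x).descFactorial (I x) := by
        refine Finset.prod_congr rfl fun x hx => ?_
        rw [hI', Finsupp.tsub_apply, Finsupp.single_eq_of_ne (Finset.ne_of_mem_erase hx),
          Nat.sub_zero]
      have h4 : (K i).descFactorial (I i) = (K i - I' i) * (K i).descFactorial (I' i) := by
        rw [← Nat.descFactorial_succ]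
        congr 1
        rw [hI', Finsupp.tsub_apply, Finsupp.single_eq_same]
        omega
      have h5 : (K - I' : J →₀ ℕ) i = K i - I' i := Finsupp.tsub_apply K I' i
      rw [h3, h4, h5]
      ring
    rw [h1, h2]

theorem Epow_psiPow_of_not_le (f : Frame J B) (I K : J →₀ ℕ) (h : ¬ I ≤ K) :
    Epow f.E I (psiPow f.ψ K) = 0 := by
  rw [symF_Epow_psi f _ I K rfl]
  have h1 : ∃ j, K j < I j := by
    by_contra hc
    push Not at hc
    exact h (Finsupp.le_def.2 hc)
  obtain ⟨j, hj⟩ := h1
  rw [Finset.prod_eq_zero (Finset.mem_univ j) (Nat.descFactorial_eq_zero_iff_lt.2 hj), zero_smul]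

theorem Epow_psiPow_self (f : Frame J B) (I : J →₀ ℕ) :
    Epow f.E I (psiPow f.ψ I) = algebraMap ℝ B (∏ j, ((I j).factorial : ℝ)) := by
  rw [symF_Epow_psi f _ I I rfl, tsub_self, symF_psi_zero]
  simp [Nat.descFactorial_self]

private theorem symF_unit (I : J →₀ ℕ) (b : B)
    (h : b * algebraMap ℝ B (∏ j, ((I j).factorial : ℝ)) = 0) : b = 0 := by
  have h0 : (∏ j, ((I j).factorial : ℝ)) ≠ 0 :=
    Finset.prod_ne_zero_iff.2 fun j _ => by exact_mod_cast (I j).factorial_ne_zero
  have h1 : b * algebraMap ℝ B (∏ j, ((I j).factorial : ℝ)) *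
      algebraMap ℝ B (∏ j, ((I j).factorial : ℝ))⁻¹ = 0 := by rw [h, zero_mul]
  rwa [mul_assoc, ← map_mul, mul_inv_cancel₀ h0, map_one, mul_one] at h1

private theorem symF_act_apply (E : J → Derivation ℝ B B) (c : MvPolynomial J B) (g : B) :
    act E c g = ∑ I ∈ c.support, c.coeff I * Epow E I g := by
  unfold act
  rw [LinearMap.sum_apply]
  rfl

private theorem symF_down (f : Frame J B) (c : MvPolynomial J B) (P : (J →₀ ℕ) → Prop)
    (hP : ∀ I K, K ≤ I → P I → P K) (h : ∀ I, P I → act f.E c (psiPow f.ψ I) = 0) :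
    ∀ I, P I → c.coeff I = 0 := by
  classical
  suffices H : ∀ (n : ℕ) (I : J →₀ ℕ), ∑ j, I j = n → P I → c.coeff I = 0 from
    fun I hI => H _ I rfl hI
  intro n
  induction n using Nat.strong_induction_on with
  | _ n ih =>
    intro I hn hPI
    have h1 := h I hPI
    rw [symF_act_apply] at h1
    by_contra hne
    have hmem : I ∈ c.support := MvPolynomial.mem_support_iff.2 hne
    rw [Finset.sum_eq_single I] at h1
    · rw [Epow_psiPow_self] at h1
      exact hne (symF_unit I _ h1)
    · intro K hK hKI
      by_cases hle : K ≤ I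
      · have hlt : ∑ j, K j < n := by
          rw [← hn]
          have hex : ∃ j, K j ≠ I j := by
            by_contra hc
            push Not at hc
            exact hKI (Finsupp.ext hc)
          obtain ⟨j, hj⟩ := hex
          exact Finset.sum_lt_sum (fun k _ => hle k)
            ⟨j, Finset.mem_univ j, lt_of_le_of_ne (hle j) hj⟩
        rw [ih _ hlt K rfl (hP I K hle hPI), zero_mul]
      · rw [Epow_psiPow_of_not_le f K I hle, mul_zero]
    · intro hI
      exact absurd hmem hI

theorem act_faithful (f : Frame J B) (c : MvPolynomial J B)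
    (h : ∀ I, act f.E c (psiPow f.ψ I) = 0) : c = 0 := by
  ext I
  rw [MvPolynomial.coeff_zero]
  exact symF_down f c (fun _ => True) (fun _ _ _ _ => trivial) (fun I _ => h I) I trivial

theorem act_injective (f : Frame J B) (c c' : MvPolynomial J B)
    (h : act f.E c = act f.E c') : c = c' := by
  have h1 : c - c' = 0 := by
    apply act_faithful f
    intro I
    rw [act_sub, h, sub_self, LinearMap.zero_apply]
  exact sub_eq_zero.1 h1

theorem trans_kill (f : Frame J B) (L : Finset J) (T : Module.End ℝ B) (hT : T ∈ DOalg f.E)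
    (h : ∀ I : J →₀ ℕ, (∀ i ∈ L, I i = 0) → T (psiPow f.ψ I) = 0) (g : B)
    (hg : ∀ i ∈ L, f.E i g = 0) : T g = 0 := by
  classical
  obtain ⟨c, rfl⟩ := (mem_DOalg_iff f.E f.hEE T).1 hT
  have h1 := symF_down f c (fun I => ∀ i ∈ L, I i = 0)
    (fun I K hKI hI i hi => Nat.le_zero.1 ((hKI i).trans_eq (hI i hi))) h
  rw [symF_act_apply]
  refine Finset.sum_eq_zero fun I hI => ?_
  have h2 : ¬ ∀ i ∈ L, I i = 0 := fun h3 => MvPolynomial.mem_support_iff.1 hI (h1 I h3)
  push Not at h2
  obtain ⟨i, hiL, hi⟩ := h2
  have hcomm : Commute (dEnd (f.E i)) (Epow f.E (I - Finsupp.single i 1)) := by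
    unfold Epow
    refine Commute.list_prod_right _ _ fun x hx => ?_
    obtain ⟨j, _, rfl⟩ := List.mem_map.1 hx
    refine Commute.pow_right ?_ _
    change dEnd (f.E i) * dEnd (f.E j) = dEnd (f.E j) * dEnd (f.E i)
    ext x
    exact f.hEE i j x
  have h3 : Epow f.E I g = 0 := by
    conv_lhs => rw [symF_split I i hi, ← Epow_single_add f.E f.hEE, hcomm.eq]
    change Epow f.E (I - Finsupp.single i 1) (f.E i g) = 0
    rw [hg i hiL, map_zero]
  rw [h3, mul_zero]

end E214
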